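import Pool.Agent.helper97.KR.Spec

/-! # Trees that are connected on `U` make `U` tight -/

set_option autoImplicit false

namespace Pool.Agent.helper97.KR

open Finset Classical

noncomputable section

theorem TGH (hMIN : MIN_stmt) (hSP1 : SP1_stmt) : TGH_stmt := by
  intro V E ends S U F T hS hU hne hc hcon hdis hF hconU
  obtain ⟨t, ht⟩ := hne
  have key : ∀ i, (ins ends (T i) U).card + 1 = U.card := by
    intro i
    have h1 := (hSP1 V E ends S (T i) (fun e he => hS e ((hF e).2 ⟨i, he⟩)) (hcon i) (hc i) U hU t ht).1
    have h2 := hMIN V E ends U (ins ends (T i) U) (fun e he => (mem_filter.1 he).2) (hconU i)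
    omega
  have hFe : ins ends F U = (univ : Finset (Fin 3)).biUnion (fun i => ins ends (T i) U) := by
    ext e
    simp only [ins, mem_filter, mem_biUnion, mem_univ, true_and]
    constructor
    · rintro ⟨h1, h2⟩
      obtain ⟨i, hi⟩ := (hF e).1 h1
      exact ⟨i, hi, h2⟩
    · rintro ⟨i, hi, h2⟩
      exact ⟨(hF e).2 ⟨i, hi⟩, h2⟩
  have hcard : (ins ends F U).card = ∑ i, (ins ends (T i) U).card := by
    rw [hFe]
    refine card_biUnion fun i _ j _ hij => ?_
    exact Finset.disjoint_of_subset_left (filter_subset _ _)
      (Finset.disjoint_of_subset_right (filter_subset _ _) (hdis i j hij))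
  rw [Fin.sum_univ_three] at hcard
  have k0 := key 0
  have k1 := key 1
  have k2 := key 2
  omega

end

end Pool.Agent.helper97.KR
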